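import Pool.Agent.W717.UR.Stm

set_option autoImplicit false

namespace Pool.Agent.W508.UR

open Filter Topology Pool.Agent.W717.UR

attribute [local instance] Classical.propDecidable

/-- bad positions -/
def Bad (y : ℤ → ℤ) (R : ℕ → ℕ) (K : ℕ) (n : ℤ) : Prop :=
  ∃ m : ℕ, m ≤ K ∧ n - m ∈ Ret y (R m)

/-- number of good positions among the `s` positions from `n` on -/
noncomputable def Dn (y : ℤ → ℤ) (R : ℕ → ℕ) (K s : ℕ) (n : ℤ) : ℕ :=
  ((Finset.range s).filter (fun i : ℕ => ¬ Bad y R K (n + i))).card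

theorem card_gap (S : Set ℤ) (p : ℕ) (hp : 0 < p)
    (hS : ∀ a ∈ S, ∀ a' ∈ S, a ≠ a' → (p : ℤ) ≤ |a - a'|) (N : ℕ) (n : ℤ) :
    ((Finset.range N).filter (fun i : ℕ => n + i ∈ S)).card ≤ N / p + 1 := by
  rw [← Finset.card_range (N / p + 1)]
  refine Finset.card_le_card_of_injOn (fun i => i / p) ?_ ?_
  · intro i hi
    simp only [Finset.coe_filter, Finset.mem_range, Set.mem_ofPred_eq] at hi
    simp only [Finset.coe_range, Set.mem_Iio]
    have := Nat.div_le_div_right (c := p) hi.1.le
    omega
  · intro i hi j hj hij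
    simp only [Finset.coe_filter, Finset.mem_range, Set.mem_ofPred_eq] at hi hj
    by_contra hne
    have h1 := hS _ hi.2 _ hj.2 (by
      intro h
      apply hne
      have : (i : ℤ) = j := by linarith
      exact_mod_cast this)
    have h2 : n + (i : ℤ) - (n + j) = (i : ℤ) - j := by ring
    rw [h2] at h1
    have hij' : i / p = j / p := hij
    have e1 := Nat.div_add_mod i p
    have e2 := Nat.div_add_mod j p
    have l1 := Nat.mod_lt i hp
    have l2 := Nat.mod_lt j hp
    rw [hij'] at e1
    have : |(i : ℤ) - j| < p := by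
      rw [abs_lt]
      constructor
      · have : (j : ℤ) < i + p := by
          have : j < i + p := by omega
          exact_mod_cast this
        linarith
      · have : (i : ℤ) < j + p := by
          have : i < j + p := by omega
          exact_mod_cast this
        linarith
    linarith

theorem sum_div (N s : ℕ) :
    ∑ m ∈ Finset.range s, N / 2 ^ (m + 5) + N / 2 ^ (s + 4) ≤ N / 16 := by
  induction s with
  | zero => simp
  | succ s ih =>
    rw [Finset.sum_range_succ]
    have h1 : N / 2 ^ (s + 5) = (N / 2 ^ (s + 4)) / 2 := by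
      rw [Nat.div_div_eq_div_mul]
      congr 1
    have h2 : s + 1 + 4 = s + 5 := by ring
    rw [h2]
    omega

theorem card_bad {y : ℤ → ℤ} {x : ℕ → ℤ} {R : ℕ → ℕ} (hR : Rad y x R) (K : ℕ) (n : ℤ) :
    ((Finset.range (16 * (K + 1))).filter (fun i : ℕ => Bad y R K (n + i))).card ≤
      2 * (K + 1) := by
  have hsub : (Finset.range (16 * (K + 1))).filter (fun i : ℕ => Bad y R K (n + i)) ⊆
      (Finset.range (K + 1)).biUnion (fun m => (Finset.range (16 * (K + 1))).filter
        (fun i : ℕ => (n - m) + i ∈ Ret y (R m))) := by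
    intro i hi
    rw [Finset.mem_filter] at hi
    obtain ⟨hi1, m, hm, hmem⟩ := hi
    rw [Finset.mem_biUnion]
    refine ⟨m, Finset.mem_range.2 (by omega), Finset.mem_filter.2 ⟨hi1, ?_⟩⟩
    have : n - (m : ℤ) + i = n + i - m := by ring
    rw [this]
    exact hmem
  refine (Finset.card_le_card hsub).trans (Finset.card_biUnion_le.trans ?_)
  have h1 : ∀ m ∈ Finset.range (K + 1), ((Finset.range (16 * (K + 1))).filter
        (fun i : ℕ => (n - m) + i ∈ Ret y (R m))).card ≤ 16 * (K + 1) / 2 ^ (m + 5) + 1 := by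
    intro m _
    apply card_gap _ _ (by positivity)
    intro a ha a' ha' hne
    have := hR.gap m a ha a' ha' hne
    push_cast
    exact this
  refine (Finset.sum_le_sum h1).trans ?_
  rw [Finset.sum_add_distrib]
  have h2 := sum_div (16 * (K + 1)) (K + 1)
  have h3 : 16 * (K + 1) / 16 = K + 1 := by omega
  rw [h3] at h2
  simp only [Finset.sum_const, Finset.card_range, smul_eq_mul, mul_one]
  generalize ∑ m ∈ Finset.range (K + 1), 16 * (K + 1) / 2 ^ (m + 5) = X at h2 ⊢
  generalize 16 * (K + 1) / 2 ^ (K + 1 + 4) = Y at h2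
  omega

theorem Dn_ge {y : ℤ → ℤ} {x : ℕ → ℤ} {R : ℕ → ℕ} (hR : Rad y x R) (K : ℕ) (n : ℤ) :
    8 * (K + 1) ≤ Dn y R K (16 * (K + 1)) n := by
  have h1 := card_bad hR K n
  have h2 := Finset.card_filter_add_card_filter_not (s := Finset.range (16 * (K + 1)))
    (fun i : ℕ => Bad y R K (n + i))
  rw [Finset.card_range] at h2
  unfold Dn
  omega

theorem R_mono {y : ℤ → ℤ} {x : ℕ → ℤ} {R : ℕ → ℕ} (hR : Rad y x R) : Monotone R := by
  apply monotone_nat_of_le_succ
  intro i
  have := hR.growth i
  omega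

theorem R_big {y : ℤ → ℤ} {x : ℕ → ℤ} {R : ℕ → ℕ} (hR : Rad y x R) {K m : ℕ} (h : K < m) :
    R K + 100 * m ≤ R m := by
  obtain ⟨m', rfl⟩ : ∃ m', m = m' + 1 := ⟨m - 1, by omega⟩
  have h1 := hR.growth m'
  have h2 : R K ≤ R m' := R_mono hR (by omega)
  omega

/-- being bad only depends on a window -/
theorem bad_congr {y : ℤ → ℤ} {R : ℕ → ℕ} {K : ℕ} (hmono : Monotone R) {n n' : ℤ}
    (h : ∀ i : ℤ, |i| ≤ K + R K → y (n + i) = y (n' + i)) (hb : Bad y R K n) :
    Bad y R K n' := by
  obtain ⟨m, hm, hmem⟩ := hb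
  refine ⟨m, hm, ?_⟩
  intro j hj
  have h1 : y (n - m + j) = y j := hmem j hj
  rw [← h1]
  have h2 := h (-(m : ℤ) + j) (by
    have h3 : |(-(m : ℤ) + j)| ≤ |(-(m : ℤ))| + |j| := abs_add_le _ _
    rw [abs_neg, Nat.abs_cast] at h3
    have h4 : (R m : ℤ) ≤ R K := by exact_mod_cast hmono hm
    have h5 : (m : ℤ) ≤ K := by exact_mod_cast hm
    linarith)
  have e1 : n - m + j = n + (-(m : ℤ) + j) := by ring
  have e2 : n' - m + j = n' + (-(m : ℤ) + j) := by ring
  rw [e1, e2, h2]

theorem Dn_congr {y : ℤ → ℤ} {R : ℕ → ℕ} {K : ℕ} (hmono : Monotone R) {n n' : ℤ} (s : ℕ)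
    (h : ∀ i : ℤ, |i| ≤ K + R K + s → y (n + i) = y (n' + i)) :
    Dn y R K s n = Dn y R K s n' := by
  unfold Dn
  congr 1
  apply Finset.filter_congr
  intro i hi
  rw [Finset.mem_range] at hi
  have hi' : (i : ℤ) < s := by exact_mod_cast hi
  rw [not_iff_not]
  constructor
  · apply bad_congr hmono
    intro j hj
    have := h (i + j) (by
      have h3 : |((i : ℤ) + j)| ≤ |(i : ℤ)| + |j| := abs_add_le _ _
      rw [Nat.abs_cast] at h3
      linarith)
    rw [add_assoc, add_assoc]
    exact this
  · apply bad_congr hmono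
    intro j hj
    have := h (i + j) (by
      have h3 : |((i : ℤ) + j)| ≤ |(i : ℤ)| + |j| := abs_add_le _ _
      rw [Nat.abs_cast] at h3
      linarith)
    rw [add_assoc, add_assoc]
    exact this.symm

/-- the pieces, before the shift -/
noncomputable def HH (y : ℤ → ℤ) (R : ℕ → ℕ) (K i : ℕ) (g : ℤ → ℝ) (n : ℤ) : ℝ :=
  if Bad y R K n then 0 else g (n - i) / Dn y R K (16 * (K + 1)) (n - i)

theorem HH_adm {y : ℤ → ℤ} {x : ℕ → ℤ} {R : ℕ → ℕ} (hR : Rad y x R) {K i : ℕ} {g : ℤ → ℝ}
    (hg : Cyl y K g) (hi : i < 16 * (K + 1)) :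
    Adm (fun i => Ret y (R i)) 0 (fun n => (8 * ((K : ℝ) + 1)) * HH y R K i g n) := by
  have hmono := R_mono hR
  constructor
  · intro n
    show |(8 * ((K : ℝ) + 1)) * HH y R K i g n| ≤ 1
    unfold HH
    split_ifs with h
    · simp
    · have h1 := Dn_ge hR K (n - i)
      have h2 : (8 * ((K : ℝ) + 1)) ≤ (Dn y R K (16 * (K + 1)) (n - i) : ℝ) := by
        have : ((8 * (K + 1) : ℕ) : ℝ) ≤ (Dn y R K (16 * (K + 1)) (n - i) : ℝ) := by
          exact_mod_cast h1
        push_cast at this
        exact this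
      have h3 : (0 : ℝ) < 8 * ((K : ℝ) + 1) := by positivity
      have h4 : (0 : ℝ) < (Dn y R K (16 * (K + 1)) (n - i) : ℝ) := lt_of_lt_of_le h3 h2
      rw [abs_mul, abs_div, abs_of_pos h3, abs_of_pos h4]
      have h5 := hg.1 (n - i)
      rw [mul_div_assoc', div_le_one h4]
      nlinarith [abs_nonneg (g (n - i))]
  · intro m n hmn
    rw [add_zero] at hmn
    show (8 * ((K : ℝ) + 1)) * HH y R K i g n = (8 * ((K : ℝ) + 1)) * HH y R K i g m
    congr 1
    have hmn' : ∀ j : ℤ, |j| ≤ R m → y ((n : ℤ) - m + j) = y j := hmn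
    by_cases hmK : m ≤ K
    · have b1 : Bad y R K n := ⟨m, hmK, hmn⟩
      have b2 : Bad y R K m := ⟨m, hmK, by
        intro j _
        rw [sub_self, zero_add]⟩
      unfold HH
      rw [if_pos b1, if_pos b2]
    · push Not at hmK
      have hbig := R_big hR hmK
      have hbig' : (R K : ℤ) + 100 * m ≤ R m := by exact_mod_cast hbig
      have hmK' : (K : ℤ) + 1 ≤ m := by exact_mod_cast hmK
      have hi' : (i : ℤ) < 16 * (K + 1) := by exact_mod_cast hi
      -- agreement
      have key : ∀ c : ℤ, |c| ≤ 50 * m + R K → y ((n : ℤ) + c) = y (m + c) := by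
        intro c hc
        have := hmn' (m + c) (by
          have h3 : |((m : ℤ) + c)| ≤ |(m : ℤ)| + |c| := abs_add_le _ _
          rw [Nat.abs_cast] at h3
          linarith)
        rw [← this]
        congr 1
        ring
      have keyb : Bad y R K n ↔ Bad y R K m := by
        constructor
        · apply bad_congr hmono
          intro j hj
          exact key j (by linarith)
        · apply bad_congr hmono
          intro j hj
          exact (key j (by linarith)).symm
      have keyD : Dn y R K (16 * (K + 1)) (n - i) = Dn y R K (16 * (K + 1)) (m - i) := by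
        apply Dn_congr hmono
        intro j hj
        have := key (-(i : ℤ) + j) (by
          have h3 : |(-(i : ℤ) + j)| ≤ |(-(i : ℤ))| + |j| := abs_add_le _ _
          rw [abs_neg, Nat.abs_cast] at h3
          push_cast at hj
          linarith)
        rw [show (n : ℤ) - i + j = n + (-(i : ℤ) + j) by ring,
          show (m : ℤ) - i + j = m + (-(i : ℤ) + j) by ring]
        exact this
      have keyg : g (n - i) = g (m - i) := by
        apply hg.2
        intro j hj
        have := key (-(i : ℤ) + j) (by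
          have h3 : |(-(i : ℤ) + j)| ≤ |(-(i : ℤ))| + |j| := abs_add_le _ _
          rw [abs_neg, Nat.abs_cast] at h3
          have h4 : (0 : ℤ) ≤ R K := by positivity
          linarith)
        rw [show (n : ℤ) - i + j = n + (-(i : ℤ) + j) by ring,
          show (m : ℤ) - i + j = m + (-(i : ℤ) + j) by ring]
        exact this
      unfold HH
      by_cases hb : Bad y R K m
      · rw [if_pos hb, if_pos (keyb.2 hb)]
      · rw [if_neg hb, if_neg (fun h => hb (keyb.1 h)), keyD, keyg]

/-- partial sums of the pieces -/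
noncomputable def PS (y : ℤ → ℤ) (R : ℕ → ℕ) (K s : ℕ) (g : ℤ → ℝ) (n : ℤ) : ℝ :=
  g n * (Dn y R K s n / Dn y R K (16 * (K + 1)) n)

/-- the single pieces -/
noncomputable def G1 (y : ℤ → ℤ) (R : ℕ → ℕ) (K i : ℕ) (g : ℤ → ℝ) (n : ℤ) : ℝ :=
  if Bad y R K (n + i) then 0 else g n / Dn y R K (16 * (K + 1)) n

theorem PS_succ (y : ℤ → ℤ) (R : ℕ → ℕ) (K s : ℕ) (g : ℤ → ℝ) (n : ℤ) :
    PS y R K (s + 1) g n = PS y R K s g n + G1 y R K s g n := by
  unfold PS G1
  have h1 : Dn y R K (s + 1) n = Dn y R K s n + if Bad y R K (n + s) then 0 else 1 := by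
    unfold Dn
    rw [Finset.range_add_one, Finset.filter_insert]
    by_cases h : Bad y R K (n + s)
    · rw [if_pos h, if_neg (not_not.2 h), add_zero]
    · rw [if_neg h, if_pos h, Finset.card_insert_of_notMem]
      simp
  rw [h1]
  split_ifs with h
  · simp
  · push_cast
    ring

theorem good_of_cyl {y : ℤ → ℤ} {x : ℕ → ℤ} {R : ℕ → ℕ} (hadm : S_ADM) (hR : Rad y x R)
    {l : ℕ} {g : ℤ → ℝ} (hg : Cyl y l g) : Good (fun i => Ret y (R i)) g := by
  refine ⟨l, 1, one_pos, ?_⟩
  simp only [div_one]
  exact hadm y x R hR l g hg l le_rfl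

theorem PS_cyl {y : ℤ → ℤ} {x : ℕ → ℤ} {R : ℕ → ℕ} (hR : Rad y x R) {K s : ℕ} {g : ℤ → ℝ}
    (hg : Cyl y K g) (hs : s ≤ 16 * (K + 1)) :
    Cyl y (K + R K + 16 * (K + 1)) (PS y R K s g) := by
  have hmono := R_mono hR
  constructor
  · intro n
    unfold PS
    have h1 := Dn_ge hR K n
    have h4 : (0 : ℝ) < (Dn y R K (16 * (K + 1)) n : ℝ) := by
      have : 0 < Dn y R K (16 * (K + 1)) n := by omega
      exact_mod_cast this
    have h2 : Dn y R K s n ≤ Dn y R K (16 * (K + 1)) n := by
      unfold Dn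
      apply Finset.card_le_card
      apply Finset.filter_subset_filter
      exact Finset.range_subset_range.2 hs
    have h3 : |(Dn y R K s n : ℝ) / Dn y R K (16 * (K + 1)) n| ≤ 1 := by
      rw [abs_div, abs_of_pos h4, abs_of_nonneg (by positivity), div_le_one h4]
      exact_mod_cast h2
    rw [abs_mul]
    exact mul_le_one₀ (hg.1 n) (abs_nonneg _) h3
  · intro n n' h
    push_cast at h
    have hs' : (s : ℤ) ≤ 16 * (K + 1) := by exact_mod_cast hs
    have h0 : (0 : ℤ) ≤ R K := by positivity
    unfold PS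
    rw [Dn_congr hmono (16 * (K + 1)) (n := n) (n' := n') (by
      intro i hi
      push_cast at hi
      exact h i (by linarith)), Dn_congr hmono s (n := n) (n' := n') (by
      intro i hi
      exact h i (by linarith)), hg.2 n n' (by
      intro i hi
      exact h i (by
        have : (0 : ℤ) ≤ K := by positivity
        linarith))]

theorem G1_cyl {y : ℤ → ℤ} {x : ℕ → ℤ} {R : ℕ → ℕ} (hR : Rad y x R) {K i : ℕ} {g : ℤ → ℝ}
    (hg : Cyl y K g) (hi : i < 16 * (K + 1)) :
    Cyl y (K + R K + 16 * (K + 1)) (G1 y R K i g) := by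
  have hmono := R_mono hR
  constructor
  · intro n
    unfold G1
    split_ifs with h
    · simp
    · have h1 := Dn_ge hR K n
      have h4 : (1 : ℝ) ≤ (Dn y R K (16 * (K + 1)) n : ℝ) := by
        have : 1 ≤ Dn y R K (16 * (K + 1)) n := by omega
        exact_mod_cast this
      rw [abs_div, abs_of_nonneg (by positivity : (0 : ℝ) ≤ (Dn y R K (16 * (K + 1)) n : ℝ)),
        div_le_one (by linarith)]
      exact (hg.1 n).trans h4
  · intro n n' h
    push_cast at h
    have hi' : (i : ℤ) < 16 * (K + 1) := by exact_mod_cast hi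
    have h0 : (0 : ℤ) ≤ R K := by positivity
    have hb : Bad y R K (n + i) ↔ Bad y R K (n' + i) := by
      constructor
      · apply bad_congr hmono
        intro j hj
        rw [add_assoc, add_assoc]
        apply h
        have h3 : |((i : ℤ) + j)| ≤ |(i : ℤ)| + |j| := abs_add_le _ _
        rw [Nat.abs_cast] at h3
        linarith
      · apply bad_congr hmono
        intro j hj
        rw [add_assoc, add_assoc]
        symm
        apply h
        have h3 : |((i : ℤ) + j)| ≤ |(i : ℤ)| + |j| := abs_add_le _ _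
        rw [Nat.abs_cast] at h3
        linarith
    unfold G1
    rw [Dn_congr hmono (16 * (K + 1)) (n := n) (n' := n') (by
      intro i hi
      push_cast at hi
      exact h i (by linarith)), hg.2 n n' (by
      intro i hi
      exact h i (by
        have : (0 : ℤ) ≤ K := by positivity
        linarith))]
    by_cases hb' : Bad y R K (n' + i)
    · rw [if_pos hb', if_pos (hb.2 hb')]
    · rw [if_neg hb', if_neg (fun h => hb' (hb.1 h))]

/-- `S_TV` from `S_ADM` -/
theorem tv (hadm : S_ADM) : S_TV := by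
  intro y x R hR L B hL hO K g hg
  -- the bound for one piece
  have hpiece : ∀ i, i < 16 * (K + 1) →
      (8 * ((K : ℝ) + 1)) * |L (G1 y R K i g)| ≤ B := by
    intro i hi
    have h1 := hO i _ (HH_adm hR hg hi)
    have h2 : (fun m : ℤ => (8 * ((K : ℝ) + 1)) * HH y R K i g (m + i)) =
        fun m => (8 * ((K : ℝ) + 1)) * G1 y R K i g m := by
      funext m
      unfold HH G1
      rw [add_sub_cancel_right]
    rw [h2, hL.smul _ _ (good_of_cyl hadm hR (G1_cyl hR hg hi)), abs_mul,
      abs_of_pos (by positivity)] at h1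
    exact h1
  have hsum : ∀ s, s ≤ 16 * (K + 1) →
      (8 * ((K : ℝ) + 1)) * |L (PS y R K s g)| ≤ s * B := by
    intro s
    induction s with
    | zero =>
      intro _
      have h0 : PS y R K 0 g = fun n => 0 * g n := by
        funext n
        unfold PS Dn
        simp
      rw [h0, hL.smul 0 g (good_of_cyl hadm hR hg)]
      simp
    | succ s ih =>
      intro hs
      have h1 := ih (by omega)
      have h2 := hpiece s (by omega)
      have h3 : PS y R K (s + 1) g = fun n => PS y R K s g n + G1 y R K s g n := by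
        funext n
        exact PS_succ y R K s g n
      rw [h3, hL.add _ _ (good_of_cyl hadm hR (PS_cyl hR hg (by omega)))
        (good_of_cyl hadm hR (G1_cyl hR hg (by omega)))]
      have h4 := abs_add_le (L (PS y R K s g)) (L (G1 y R K s g))
      have h5 : (0 : ℝ) < 8 * ((K : ℝ) + 1) := by positivity
      push_cast
      nlinarith [mul_le_mul_of_nonneg_left h4 h5.le]
  have hfin := hsum (16 * (K + 1)) le_rfl
  have hg' : PS y R K (16 * (K + 1)) g = g := by
    funext n
    unfold PS
    have h1 := Dn_ge hR K n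
    have h4 : (Dn y R K (16 * (K + 1)) n : ℝ) ≠ 0 := by
      have : Dn y R K (16 * (K + 1)) n ≠ 0 := by omega
      exact_mod_cast this
    rw [div_self h4, mul_one]
  rw [hg'] at hfin
  push_cast at hfin
  have h5 : (0 : ℝ) < 8 * ((K : ℝ) + 1) := by positivity
  have h6 : (8 * ((K : ℝ) + 1)) * |L g| ≤ (8 * ((K : ℝ) + 1)) * (2 * B) := by linarith
  exact le_of_mul_le_mul_left h6 h5

end Pool.Agent.W508.UR
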